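import Mathlib
import Pool.Agent.N197.Htj.Lim

/-!
# The Tate conjecture for the products of 100% of the hyperelliptic Jacobians with any variety,
# over all finitely generated fields of characteristic different from two

Let `R` be an integrally closed domain which is finitely generated as a ring and not a field, with
`2 ≠ 0` in `R`, and `k` its field of fractions. (Each infinite finitely generated field of
characteristic different from 2 is the field of fractions of such an `R`.) Let `n i ≥ 7`, `i` in a finite
nonempty set, be odd numbers. We consider the tuples `f` of monic polynomials `f i` over `R` of degrees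
`n i`; `J i` is the Jacobian of the curve `y ^ 2 = f i (x)`, of dimension `(n i - 1) / 2`. The group
`J i (F)`, for an algebraically closed field `F`, is the class group of the ring `F[x, y]` of the affine
curve (the curve has one point at infinity), and `V_2 (J i)` is its rational 2-adic Tate module.

Let `L` be an extension field of `k` and `W` a finite dimensional 2-adic representation of the absolute
Galois group of `L` with a stable lattice, for instance `W = H ^ j (Z, ℚ_2) (c)` for any smooth
projective variety `Z` over `L`. `Holds` means: the `f i` are separable over `L`, and for each `n` all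
Tate classes on `(∏ J i) ^ n` with values in `W`, that is, all Tate classes in
`H ^ a ((∏ J i) ^ n) ⊗ H ^ j (Z) (c)`, are linear combinations of products of the classes
`ω i (v p, w q) + ω i (v q, w p)` of divisors and of Tate classes of `W`, and there are none if `a` is odd
(`Splits`). Here `ω i` is an alternating, nondegenerate and equivariant form on `V_2 (J i)`; the theorem
shows that it is unique up to a factor, so that it is a multiple of the Weil pairing of the theta
divisor. So the Tate conjecture for `ℓ = 2` and all the varieties `Z × J 1 ^ m 1 × ... × J r ^ m r` over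
`L`, in all degrees, is equivalent to the Tate conjecture for `Z`.

Theorem. (1) (100% for each `Z`.) Let `L` be an extension of `k` in which the separable closure of `k` is
a finite extension of `k` (for instance any finitely generated extension), and `W` any finite
dimensional 2-adic representation of the Galois group of `L` with a stable lattice. Let `B 0`, `B 1`, ...
be nonempty finite sets of tuples which are equidistributed modulo each ideal of `R` with finite
quotient, for instance boxes. Then the proportion of the tuples `f` in `B t` for which `Holds` is true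
tends to `1`.

The other parts are uniform in `L` and `W`. `U` is a finite set of elements of `kˣ`. The tuple `f` is
called good (for `U`) if `Holds` is true for ALL extension fields `L` of `k` such that

(`Allowed`) the elements of `L` which are separable algebraic over `k` have solvable Galois groups, or
they lie in a normal extension of `k` over which none of the `f i` splits into linear factors, or in
which only the elements of `U`, up to squares, become squares,

and for ALL representations `W` with a stable lattice of rank `d` such that

(`Tame`) `(n i)! > 2 ^ (d ^ 2 + 1)` for all `i`, or the Galois group of the extension `L'` of `L` defined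
by the action on the lattice modulo 2 is solvable, or each square root of an element `c` of `kˣ` which
is in `L'` is the square root of an element of `U`, up to factors in `k` (for `k = ℚ` and `L = ℚ` this
holds if `W` is unramified outside of a finite set of primes and `U` is the set of the numbers `± ∏ p`,
`p` in this set or `p = 2`).

(2) (Congruences.) For all `U` and `η > 0` there is an ideal `M` of `R` with finite quotient such that
for a proportion of at least `1 - η` of the residue classes modulo `M` of tuples, ALL tuples in the
class are good for `U`.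

(3) (One exceptional set.) For `B 0`, `B 1`, ... as in (1) there are finite sets `V 0`, `V 1`, ... of
elements of `kˣ` such that each element of `kˣ` is in `V t` for all large `t`, and the proportion of the
tuples in `B t` which are good for `V t` tends to `1`.

There is no hypothesis on the Galois groups of the polynomials, on the reduction of the curves, on
Frobenius elements, or on the field defined by `Z`.

Proof. A sieve over the maximal ideals of `R` gives Frobenius elements which show that the Galois groups
of the `f i` over `k` are the symmetric groups, that for `i ≠ j` some elements are the identity on the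
roots of `f j` and have no fixed root of `f i`, and that the square roots of the discriminants of the
`f i` are not in the field generated by the square roots of the elements of `U`. By the theory of the
alternating groups this extends to all `L` and to the extensions `L'`. The theorem on large Galois groups
(`Pool.Agent.N171.Bg`) gives the Tate classes.
-/

set_option autoImplicit false

namespace Pool.Agent.Results.MP_0fca13_ag.AlmostAllHyperelliptic

open Polynomial Filter Topology Pool.Agent.N171
open scoped Classical

universe w

/-- The tuple of the monic polynomials over `k` with the coefficients `y`: the polynomial `i` is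
`X ^ n i + ∑ j < n i, y (i, j) X ^ j`. -/
noncomputable def poly {R : Type} [CommRing R] (k : Type) [Field k] [Algebra R k] {ι : Type}
    {n : ι → ℕ} (y : (Σ i, Fin (n i)) → R) (i : ι) : k[X] :=
  X ^ n i + ∑ j : Fin (n i), C (algebraMap R k (y ⟨i, j⟩)) * X ^ (j : ℕ)

/-- The Tate classes on the powers `V ^ n` with values in `W` are zero in odd degrees, and in even
degrees they are the linear combinations of the forms `g • w`, where `g` is a wedge product of forms
`ω q (v i) (w j) + ω q (v j) (w i)` and `w` is a Tate class of `W`. -/
def Splits {k V W Γ Q : Type*} [Field k] [AddCommGroup V] [Module k V] [AddCommGroup W] [Module k W]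
    [Group Γ] (ρ : Representation k Γ V) (χ : Γ →* k) (ω : Q → V →ₗ[k] V →ₗ[k] k)
    (τ : Representation k Γ W) : Prop :=
  (∀ (n a : ℕ) (f : (Fin n → V) [⋀^Fin a]→ₗ[k] W), Odd a → IsTateV ρ τ f → f = 0) ∧
  ∀ (n m : ℕ) (f : (Fin n → V) [⋀^Fin m × Fin 2]→ₗ[k] W),
    IsTateV ρ τ f ↔ f ∈ Submodule.span k {h | IsProdW χ τ ω h}

/-- The Tate classes on the powers of the product of the Jacobians of the curves `y ^ 2 = f i (x)` over
the extension `L` of `k`, with values in the representation `τ` of the Galois group of `L`. -/
def Holds {k : Type} [Field k] (L F : Type) [Field L] [Field F] [Algebra k L] [Algebra L F]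
    {ι : Type} (f : ι → k[X]) {W : Type w} [AddCommGroup W] [Module ℚ_[2] W]
    (τ : Representation ℚ_[2] (F ≃ₐ[L] F) W) : Prop :=
  ∃ (_ : ∀ i, HypP ((f i).map (algebraMap k L)))
    (ω : ∀ i, Vt (JacP ((f i).map (algebraMap k L)) F) →ₗ[ℚ_[2]]
      Vt (JacP ((f i).map (algebraMap k L)) F) →ₗ[ℚ_[2]] ℚ_[2]),
    (∀ i, IsWeil (vRep (JacP ((f i).map (algebraMap k L)) F) (F ≃ₐ[L] F)) (cycQ L F) (ω i)) ∧
    Splits (vRep (JPi (fun i => (f i).map (algebraMap k L)) F) (F ≃ₐ[L] F))
      (cycQ L F) (fun i => pullP (fun i => (f i).map (algebraMap k L)) F i (ω i)) τ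

/-- An extension `L` of `k` such that the separable algebraic elements of `L` over `k` have solvable
Galois groups, or lie in a normal extension over which none of the polynomials `f i` splits, or in
which the only elements of `k` which become squares are those of `U`, up to squares. -/
def Allowed {k : Type} (L F : Type) [Field k] [Field L] [Field F] [Algebra k L] [Algebra L F]
    [Algebra k F] (U : Finset kˣ) {ι : Type} (f : ι → k[X]) : Prop :=
  (∀ x : L, IsSeparable k x → Group.IsSolvable (minpoly k x).Gal) ∨
  ∃ M : IntermediateField k F, Normal k M ∧ (∀ x : L, IsSeparable k x → algebraMap L F x ∈ M) ∧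
    ((∀ i, ¬ ((f i).map (algebraMap k M)).Splits) ∨
      ∀ c : kˣ, (∃ δ ∈ M, δ ^ 2 = algebraMap k F c) → ∃ u ∈ U, IsSquare (c * u))

/-- The representation has a stable lattice. -/
def HasLattice {L F W : Type*} [Field L] [Field F] [Algebra L F] [AddCommGroup W] [Module ℚ_[2] W]
    (τ : Representation ℚ_[2] (F ≃ₐ[L] F) W) : Prop :=
  ∃ (d : ℕ) (b : Module.Basis (Fin d) ℚ_[2] W), ∀ s, TrivMod b (τ s) 0

/-- The conditions on the representation `W`, which do not depend on the polynomials: for some stable
lattice of rank `d`, `(n i)! > 2 ^ (d ^ 2 + 1)`, or the image of the Galois group modulo 2 is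
solvable, or the elements of `k` which become squares in the extension defined by the action on the
lattice modulo 2 are in `U`, up to squares. -/
def Tame {k L F W : Type*} [Field k] [Field L] [Field F] [Algebra L F] [Algebra k F]
    [AddCommGroup W] [Module ℚ_[2] W] {ι : Type*} (n : ι → ℕ) (U : Finset kˣ)
    (τ : Representation ℚ_[2] (F ≃ₐ[L] F) W) : Prop :=
  ∃ (d : ℕ) (b : Module.Basis (Fin d) ℚ_[2] W), (∀ s, TrivMod b (τ s) 0) ∧
    ((∀ i, 2 ^ (d ^ 2 + 1) < (n i).factorial) ∨
      (∃ m : ℕ, ∀ s ∈ derivedSeries (F ≃ₐ[L] F) m, TrivMod b (τ s) 1) ∨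
      ∀ c : kˣ, (∀ δ : F, δ ^ 2 = algebraMap k F c → ∀ s, TrivMod b (τ s) 1 → s δ = δ) →
        ∃ u ∈ U, IsSquare (c * u))

/-- The good tuples of polynomials. -/
def Good {k ι : Type} [Field k] (n : ι → ℕ) (U : Finset kˣ) (f : ι → k[X]) : Prop :=
  ∀ (L F : Type) [Field L] [Field F] [Algebra k L] [Algebra L F] [Algebra k F]
    [IsScalarTower k L F] [IsAlgClosure L F], Allowed L F U f →
    ∀ (W : Type w) [AddCommGroup W] [Module ℚ_[2] W] (τ : Representation ℚ_[2] (F ≃ₐ[L] F) W),
      Tame n U τ → Holds L F f τ

/-- The tuple `y` over `R` is in the residue class `z`. -/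
def InClass {R σ : Type} [CommRing R] {M : Ideal R} (y : σ → R) (z : σ → R ⧸ M) : Prop :=
  ∀ j, Ideal.Quotient.mk M (y j) = z j

/-- A sequence of nonempty finite sets of tuples which is equidistributed modulo each ideal with finite
quotient. -/
def Equidistributed {R σ : Type} [CommRing R] [Fintype σ] (B : ℕ → Finset (σ → R)) : Prop :=
  (∀ t, (B t).Nonempty) ∧ ∀ M : Ideal R, Finite (R ⧸ M) → ∀ z : σ → R ⧸ M,
    Tendsto (fun t => (((B t).filter (fun y => InClass y z)).card : ℝ) / ((B t).card : ℝ)) atTop
      (𝓝 (1 / (Nat.card (R ⧸ M) : ℝ) ^ Fintype.card σ))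

/-- The proportion of the tuples `y` in `B t` with the property `P t y` tends to one. -/
def AlmostAll {R σ : Type} (B : ℕ → Finset (σ → R)) (P : ℕ → (σ → R) → Prop) : Prop :=
  Tendsto (fun t => (((B t).filter (P t)).card : ℝ) / ((B t).card : ℝ)) atTop (𝓝 1)

/-- **The Tate conjecture for the products of 100% of the hyperelliptic Jacobians with any variety, over
all finitely generated fields of characteristic different from two.** -/
theorem result (R k : Type) [CommRing R] [IsDomain R] [IsIntegrallyClosed R]
    [Algebra.FiniteType ℤ R] [Field k] [Algebra R k] [IsFractionRing R k] (hR : ¬ IsField R)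
    (h2 : (2 : R) ≠ 0) {ι : Type} [Fintype ι] [Nonempty ι] (n : ι → ℕ) (h7 : ∀ i, 7 ≤ n i)
    (ho : ∀ i, Odd (n i)) :
    (∀ B : ℕ → Finset ((Σ i, Fin (n i)) → R), Equidistributed B →
      ∀ (L F : Type) [Field L] [Field F] [Algebra k L] [Algebra L F] [Algebra k F]
        [IsScalarTower k L F] [IsAlgClosure L F], FiniteDimensional k (separableClosure k L) →
        ∀ (W : Type w) [AddCommGroup W] [Module ℚ_[2] W] (τ : Representation ℚ_[2] (F ≃ₐ[L] F) W),
          HasLattice τ → AlmostAll B fun _ y => Holds L F (poly k y) τ) ∧
    (∀ (U : Finset kˣ) (η : ℝ), 0 < η → ∃ M : Ideal R, Finite (R ⧸ M) ∧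
      (1 - η) * (Nat.card ((Σ i, Fin (n i)) → R ⧸ M) : ℝ) ≤
        (Nat.card {z : (Σ i, Fin (n i)) → R ⧸ M //
          ∀ y : (Σ i, Fin (n i)) → R, InClass y z → Good.{w} n U (poly k y)} : ℝ)) ∧
    ∀ B : ℕ → Finset ((Σ i, Fin (n i)) → R), Equidistributed B →
      ∃ V : ℕ → Finset kˣ, (∀ u : kˣ, ∀ᶠ t in atTop, u ∈ V t) ∧
        AlmostAll B fun t y => Good.{w} n (V t) (poly k y) := by
  have hG : ∀ (U : Finset kˣ) (f : ι → k[X]), Pool.Agent.N197.Htj.Good.{w} n U f → Good.{w} n U f := by
    intro U f h L F _ _ _ _ _ _ _ hA W _ _ τ hτ
    obtain ⟨hyp, ω, hω, h4⟩ := h L F hA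
    exact ⟨hyp, ω, hω, h4 W τ hτ⟩
  refine ⟨fun B hB L F _ _ _ _ _ _ _ hL W _ _ τ hτ => ?_, fun U η hη => ?_, fun B hB => ?_⟩
  · have h := Pool.Agent.N197.Htj.lim_W.{w} R k n hR h2 h7 ho L F τ hτ B hB.1 (fun M hM x => by
      have h1 := hB.2 M hM x
      unfold InClass at h1
      convert h1)
    exact h
  · obtain ⟨M, hM, h⟩ := Pool.Agent.N197.Htj.dens_good.{w} R k n hR h2 h7 ho U η hη
    refine ⟨M, hM, ?_⟩
    have := hM
    have := Fintype.ofFinite (R ⧸ M)
    have h1 : Nat.card ((Σ i, Fin (n i)) → R ⧸ M) =
        Nat.card (R ⧸ M) ^ Fintype.card (Σ i, Fin (n i)) := by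
      rw [Nat.card_eq_fintype_card, Nat.card_eq_fintype_card, Fintype.card_fun]
    rw [h1, Nat.cast_pow]
    refine h.trans ?_
    rw [← Nat.card_coe_set_eq]
    have h3 : Nat.card {z : (Σ i, Fin (n i)) → R ⧸ M | ∀ y : (Σ i, Fin (n i)) → R,
        (∀ j, Ideal.Quotient.mk M (y j) = z j) →
          Pool.Agent.N197.Htj.Good.{w} n U (Pool.Agent.N197.Htj.poly k y)} ≤
        Nat.card {z : (Σ i, Fin (n i)) → R ⧸ M |
          ∀ y : (Σ i, Fin (n i)) → R, InClass y z → Good.{w} n U (poly k y)} := by
      refine Nat.card_mono (Set.toFinite _) fun z hz y hy => ?_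
      exact hG U _ (hz y hy)
    exact_mod_cast h3
  · obtain ⟨V, hV, h⟩ := Pool.Agent.N197.Htj.lim_good.{w} R k n hR h2 h7 ho B hB.1 (fun M hM x => by
      have h1 := hB.2 M hM x
      unfold InClass at h1
      convert h1)
    refine ⟨V, hV, tendsto_of_tendsto_of_tendsto_of_le_of_le h tendsto_const_nhds (fun t => ?_)
      fun t => ?_⟩
    · have h0 : (0 : ℝ) < ((B t).card : ℝ) := by exact_mod_cast (hB.1 t).card_pos
      apply div_le_div_of_nonneg_right _ h0.le
      have h3 : (B t).filter (fun y => Pool.Agent.N197.Htj.Good.{w} n (V t)
          (Pool.Agent.N197.Htj.poly k y)) ⊆ (B t).filter (fun y => Good.{w} n (V t) (poly k y)) := by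
        intro y hy
        rw [Finset.mem_filter] at hy ⊢
        exact ⟨hy.1, hG _ _ hy.2⟩
      exact_mod_cast Finset.card_le_card h3
    · have h0 : (0 : ℝ) < ((B t).card : ℝ) := by exact_mod_cast (hB.1 t).card_pos
      show _ / _ ≤ (1 : ℝ)
      rw [div_le_one h0]
      exact_mod_cast Finset.card_filter_le _ _

end Pool.Agent.Results.MP_0fca13_ag.AlmostAllHyperelliptic
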