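import Mathlib
import Pool.Agent.N183.U7.Fin
import Pool.Agent.N183.U7.Ns

/-!
# Tate classes are generated by divisors and Weil classes

Let `X` be an abelian variety over a number field (or a finitely generated field of characteristic
zero) which is embedded in `ℂ`. There are two kinds of Hodge classes which are easily described:

* the classes of divisors, and
* the *Weil classes* (`IsWeil`): the Hodge classes which are invariant under the special linear group
  of `H_1(X, ℚ)` over `End(X) ⊗ ℚ`. If `End(X) ⊗ ℚ` is a CM field `F` and `r = 2 dim(X) / [F : ℚ]`
  then the first interesting ones are the Hodge classes in `∧_F^r H^1(X, ℚ)`, considered by Weil for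
  imaginary quadratic fields. All Hodge classes on abelian varieties of CM type are Weil classes.

We show that, under the conditions below, all `ℓ`-adic Tate classes on `X`, in all degrees and over
all finite extensions of the base field, are `ℚ_ℓ`-linear combinations of classes in the ring
generated by the classes of these two kinds (`Gen`), and that the rational Tate classes, for instance
all Hodge classes (by the theorem of Deligne), are in this ring. So for these abelian varieties the
Tate conjecture and the Hodge conjecture both follow if Weil classes are algebraic, and Tate classes
are combinations of Hodge classes.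

The conditions. Each simple factor `Y` of `X` over `ℂ` has to satisfy one of the following.

* The dimension of `Y` is at most three, or `Y` has complex multiplication (`HasCMult`).
* `QuadThree`: the endomorphism algebra of `Y` is an imaginary quadratic field, and its
  multiplicities on the tangent space are at most three.
* `RealOdd`: `Y` is of Albert type I or II, and the relative dimension is odd or at most three.
* `CopMult`: for a maximal subfield `ℚ[a]` of the endomorphism algebra, of degree `m`, and for one
  embedding `s : ℚ[a] → ℂ`, the multiplicity of `s` on the tangent space is prime to the dimension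
  `r = 2 dim(Y) / m` of the eigenspaces `V_s` of `a` on `V(Y)`.
* `GalMultTwo`: for each embedding `s` of a maximal subfield `ℚ[a]` of the endomorphism algebra
  - there is a pseudo-reflection (or a transvection) of `V_s` conjugation by which is a linear
    combination of conjugations by elements of the Galois group commuting with all endomorphisms, for
    instance a pseudo-reflection which is an element of the Galois group; if it is a reflection of
    order two then `Y` has to be of type IV (`GalRefl`); or
  - some element of the Galois group, commuting with all endomorphisms, acts on `V_s` with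
    eigenvalues in just two classes, of coprime multiplicities (`TwoClasses`).

The multiplicities `N(s)` of the embeddings `s` of the centre of `End(X) ⊗ ℚ` on the tangent space of
`X` (`IsCentreMult`) have to be separated (`IsSeparated`); for instance they may be totally real,
definite or of superelliptic type (`SuperOrCM`). (The condition excludes two factors the derived
groups of which could be identified by a twist; it is empty if no embedding belonging to a factor
without complex multiplication is definite, and factors with complex multiplication never violate
it.) There is *no* condition of nondegeneracy: `X` may have any exceptional classes, and any factors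
with complex multiplication.

Example. Let `ℓ` be an odd prime number, `q_i` powers of `ℓ`, `f_i` polynomials of degrees
`n_i ≥ 5`, prime to `ℓ`, the Galois groups of which over the base field are the symmetric groups
`S_{n_i}`, and `Y_i` the new parts of the Jacobians of the curves `y ^ q_i = f_i(x)`. Then `X` may be
any product of powers of the `Y_i` and of arbitrary abelian varieties with complex multiplication. If
there are several factors then there are exceptional classes in general (for `q_i = ℓ` they come from
Fermat varieties of degree `ℓ`: the Weil classes are products of classes of the determinants of the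
eigenparts `V_χ` of `H^1(Y_i)` over `ℚ(ζ_ℓ)`, and `∧^{n-1} V_χ` is a part of the cohomology of the
quotient of `C^{n-1}`, `C` the curve `y ^ ℓ = f(x)`, by `S_{n-1}` and the kernel of the product
`μ_ℓ^{n-1} → μ_ℓ`; by Lagrange interpolation of `g = ∏ (x - x_i)` at the roots `a_k` of `f` this
quotient is birational to the cyclic covering `y ^ ℓ = D ∏ z_k` of the hyperplane `∑ z_k = 1`, where
`y = ∏ y_i` and `z_k = g(a_k) / f'(a_k)`, a quotient of a Fermat variety of degree `ℓ`. For Fermat
varieties of prime degree the Hodge conjecture is known (Shioda, Ran)).

The proof. The Lie algebra generated by the Hodge-Tate elements over `ℂ_ℓ` is normalised by the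
Galois group; on each eigenspace of the centre it contains an element of rank one up to scalars, and
its derived algebra is the product of the Lie algebras `𝔰𝔩` and `𝔰𝔭`. The forms invariant under it
are combinations of products of bilinear forms and of products of determinants. The product of the
determinants which occur in such a term is shown to be invariant under the Lie algebra of the
Mumford-Tate group (only the multiplicities on the tangent space matter) and under the special linear
Lie algebra of `H_1(X)` over `End(X)`. Both are defined over `ℚ`, so it is a combination of rational
forms with the same properties, that is, of Weil classes.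
-/

namespace Pool.Agent.Results.MP_0fca13_ag.DivisorsAndWeilClasses

open Module Pool.Agent.Y90 Pool.Agent.R915 Pool.Agent.Y224.TS.St Pool.Agent.N183.TS
  Pool.Agent.N183.U5 Pool.Agent.N183.U6 Pool.Agent.N183.U7 TensorProduct

/-- **Tate classes and Weil classes** on an abelian variety `X` over a number field or a finitely
generated field, given (as a complex abelian variety) by `X : AV`, a polarization `E` and the
representation `ρ` of the Galois group `Γ` on the Tate module `ℚ_ℓ ⊗ H_1(X, ℚ)`, with the known
properties of the Tate module (`IsTateModule`; `χ` is the cyclotomic character, and `ℂ` is identified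
with an algebraic closure of `ℚ_ℓ`). Suppose that the simple factors of `X` over `ℂ` are as above,
and that the multiplicity function `N` of the centre of `End(X) ⊗ ℚ` is separated, or totally real,
definite or superelliptic for each embedding. Then each Tate class `φ` of degree `2 m` (an
alternating form on the Tate module on which a subgroup of finite index acts through `χ ^ m`) is a
`ℚ_ℓ`-linear combination of classes in the ring generated by the divisor classes and the Weil
classes, and if `φ` is rational (for instance a Hodge class) then it is in this ring. -/
theorem result (X : AV) (E : X.H → X.H → ℚ) (hE : Pool.Agent.Y90.St.IsPolarization X.per E)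
    (ℓ : ℕ) [Fact ℓ.Prime] [Algebra ℚ_[ℓ] ℂ] [Algebra.IsAlgebraic ℚ_[ℓ] ℂ]
    {Γ : Type} [Group Γ] (ρ : Representation ℚ_[ℓ] Γ (ℚ_[ℓ] ⊗[ℚ] X.H)) (χ : Γ →* ℚ_[ℓ])
    (hρ : IsTateModule X.per E ρ χ)
    (hX : ∀ Y, IsFactor Y X → finrank ℚ Y.H ≤ 6 ∨ HasCMult Y ∨ QuadThree Y ∨ RealOdd Y ∨
      CopMult Y ∨ GalMultTwo X ρ Y)
    (N : ℂ → ℕ) (hN : IsCentreMult X N) (hN' : IsSeparated N ∨ SuperOrCM N)
    {m : ℕ} (φ : (ℚ_[ℓ] ⊗[ℚ] X.H) [⋀^(Fin m × Fin 2)]→ₗ[ℚ_[ℓ]] ℚ_[ℓ])
    (hφ : ∃ Δ : Subgroup Γ, Δ.FiniteIndex ∧ ∀ g ∈ Δ, ∀ v : Fin m × Fin 2 → ℚ_[ℓ] ⊗[ℚ] X.H,
      φ (fun k => ρ g (v k)) = χ g ^ m * φ v) :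
    (∃ (n : ℕ) (c : Fin n → ℚ_[ℓ]) (f : Fin n → (X.H [⋀^(Fin m × Fin 2)]→ₗ[ℚ] ℚ)),
      (∀ j, Gen X (Fin m × Fin 2) (f j)) ∧
        ∀ v : Fin m × Fin 2 → X.H, φ (fun k => 1 ⊗ₜ v k) =
          ∑ j, c j * ((f j v : ℚ) : ℚ_[ℓ])) ∧
    ∀ f : X.H [⋀^(Fin m × Fin 2)]→ₗ[ℚ] ℚ, (∀ v, φ (fun k => 1 ⊗ₜ v k) = ((f v : ℚ) : ℚ_[ℓ])) →
      Gen X (Fin m × Fin 2) f := by
  have hs : IsSeparated N := hN'.elim id SuperOrCM.sep
  have h1 := Pool.Agent.N183.U7.tate_gen X hE hX hN hs hρ φ hφ
  exact ⟨h1, fun f hf => rat_gen h1 f hf⟩

end Pool.Agent.Results.MP_0fca13_ag.DivisorsAndWeilClasses
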