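import Pool.Agent.N171.TG.Ff3

/-!
# The Tate conjecture in characteristic `p` at EVERY prime number from the geometric image modulo TWO

Let `k` be a field finitely generated over its prime field, of characteristic `p > 2`, with absolute
Galois group `G`; let `M i` be finitely many motives over `k` with ALTERNATING polarizations `J i`, of
weight `w i` and rank `N i ≥ 6`; for instance the (primitive) cohomology in the middle degree of smooth
projective varieties `X i` of odd dimension. Let `Z` be an ARBITRARY smooth projective variety over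
`k`, and let `τ` be its cohomology in some degree and some Tate twist, of dimension `d`.

**Theorem.** Suppose that the polarizations are integral with odd determinant on 2-adic lattices stable
under `G` and that the joint image of the GEOMETRIC Galois group (the elements which fix all roots of
unity) on these lattices MODULO TWO is large (`LargeModTwo`): there are `N i + 1` integral vectors with
odd mutual products, and each EVEN permutation of these vectors modulo two is given by a geometric
element which acts trivially on the other lattices modulo two (for example if the geometric monodromy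
group modulo two contains the product of the groups `Sp(N i, 𝔽₂)`). Suppose that the 2-adic cohomology of
`Z` modulo two does not absorb the action on the `i`-th frame (`FreeValues`): for each `i` some
geometric element acts trivially modulo two on the cohomology of `Z` and permutes the frames modulo
two, the `i`-th one not trivially; or `(N i + 1)! > 2 ^ (d ^ 2 + 1)`.

Then at EVERY prime number `ℓ ≠ p`, for all tensor words in the motives `M i` and for all classes with
values in the `ℓ`-adic cohomology of `Z`, over all finite extensions of `k`: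
* if some `M i` occurs an odd number of times in the word then there are no Tate classes;
* in a word of weight `2 j` the Tate classes are exactly the combinations of the products
  `T₀ ⊗ x` of a RATIONAL invariant `T₀` of the symplectic Lie algebras (by Weyl's theorem a combination
  of products of polarizations, an algebraic class) and a Tate class `x` of `Z` (a vector of `τ ℓ` on
  which an open subgroup of `G` acts by the power `κ ^ j` of the character of `ℚ_ℓ(-1)`).

So if the cohomology of the `X i` is algebraic outside of the middle degree, the Tate conjecture at `ℓ`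
for `∏ (X i) ^ (n i) × Z` is EQUIVALENT to the Tate conjecture at `ℓ` for `Z`, for all exponents `n i`, all
`ℓ ≠ p` and every `Z` with the property above; the only hypothesis is on finite groups, at the prime two.

The motives are given by their realizations. Besides the formal properties (`IsSystem`) the theorem
uses one fact on the compatible system (`DimensionsIndependent`): for every open subgroup `H` of `G` the
DIMENSION of the space of the classes in `Hom(M (a 1) ⊗ ... ⊗ M (a m), τ)` invariant under the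
geometric part of `H` is independent of `ℓ`. This is a theorem of Deligne (Weil II): by the trace formula
and purity the dimension is the order of the pole on the boundary of the domain of convergence of
the L-function of a pure lisse sheaf on a model of the extension of `k` defined by `H`, and the
L-function is independent of `ℓ`.

Idea of the proof. At the prime two the Lie algebra of the joint image of the geometric group contains
the Lie algebras `sp (J i)` with zero component on the values (`Pool.Agent.N171.TG`, projects Tn and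
Wn). So the geometric invariants at the prime two in a word are `I ⊗ τ^H`, where `I` is the space of
the invariants of the symplectic Lie algebras, of dimension `r` independent of `ℓ`, and their dimension
is `r dim τ^H`. At another prime `ℓ` the space of geometric invariants contains `I ⊗ τ^H`, and both
spaces have the same dimensions as at the prime two; so they are equal. Over the Galois group
of `k` the components of a Tate class in a basis of `I` are Tate classes of `Z`.
-/

set_option autoImplicit false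

namespace Pool.Agent.Results.MP_0fca13_ag.FunctionFieldsEveryEll

open Matrix

/-- the absolute Galois group, with the profinite (Krull) topology -/
abbrev AbsoluteGaloisGroup (k : Type) [Field k] : Type := Gal(SeparableClosure k/k)

/-- the geometric elements: those which fix all roots of unity of the separable closure -/
def geometric (k : Type) [Field k] : Set (AbsoluteGaloisGroup k) :=
  {σ | ∀ x : SeparableClosure k, ∀ n : ℕ, 0 < n → x ^ n = 1 → σ x = x}

/-- the rational matrix as an `ℓ`-adic matrix -/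
noncomputable abbrev adic (ℓ : ℕ) [Fact ℓ.Prime] {n : ℕ} (J : Matrix (Fin n) (Fin n) ℚ) :
    Matrix (Fin n) (Fin n) ℚ_[ℓ] := J.map (algebraMap ℚ ℚ_[ℓ])

/-- The `ℓ`-adic realizations, for all `ℓ` different from the characteristic `p`, of motives of rank
`N i` and weight `w i` over the field `k` with alternating rational polarizations `J i`, and of the
cohomology `τ` of a variety; `κ` is the character of `ℚ_ℓ(-1)`, which is trivial on the geometric
elements. -/
structure IsSystem {k : Type} [Field k] (p : ℕ) {ι : Type} {N : ι → ℕ} (w : ι → ℕ) {d : ℕ}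
    (J : ∀ i, Matrix (Fin (N i)) (Fin (N i)) ℚ)
    (κ : ∀ (ℓ : ℕ) [Fact ℓ.Prime], AbsoluteGaloisGroup k →* ℚ_[ℓ])
    (ρ : ∀ (ℓ : ℕ) [Fact ℓ.Prime] (i : ι), AbsoluteGaloisGroup k →*
      Matrix (Fin (N i)) (Fin (N i)) ℚ_[ℓ])
    (τ : ∀ (ℓ : ℕ) [Fact ℓ.Prime], AbsoluteGaloisGroup k →* Matrix (Fin d) (Fin d) ℚ_[ℓ]) :
    Prop where
  alternating : ∀ i, (J i)ᵀ = -J i
  nondegenerate : ∀ i, (J i).det ≠ 0
  continuous_char : ∀ (ℓ : ℕ) [Fact ℓ.Prime], ℓ ≠ p → Continuous (κ ℓ)
  continuous : ∀ (ℓ : ℕ) [Fact ℓ.Prime], ℓ ≠ p → ∀ i, Continuous (ρ ℓ i)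
  continuous_values : ∀ (ℓ : ℕ) [Fact ℓ.Prime], ℓ ≠ p → Continuous (τ ℓ)
  geometric_char : ∀ (ℓ : ℕ) [Fact ℓ.Prime], ℓ ≠ p → ∀ σ ∈ geometric k, κ ℓ σ = 1
  similitude : ∀ (ℓ : ℕ) [Fact ℓ.Prime], ℓ ≠ p → ∀ i g,
    (ρ ℓ i g)ᵀ * adic ℓ (J i) * ρ ℓ i g = κ ℓ g ^ w i • adic ℓ (J i)

/-- the value of the multilinear form with the coefficients `T` -/
def value {F : Type} [Field F] {m : ℕ} {n : Fin m → ℕ} (T : (∀ t, Fin (n t)) → F)
    (v : ∀ t, Fin (n t) → F) : F :=
  ∑ r, T r * ∏ t, v t (r t)

/-- the value of the multilinear map with the coefficients `T` and with values in `F ^ d` -/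
def vectorValue {F : Type} [Field F] {m d : ℕ} {n : Fin m → ℕ} (T : (∀ t, Fin (n t)) → Fin d → F)
    (v : ∀ t, Fin (n t) → F) : Fin d → F :=
  ∑ r, (∏ t, v t (r t)) • T r

/-- The space of the multilinear maps on the tensor word `a`, with values in the representation `τ`,
which are equivariant for the geometric elements of `H`. -/
noncomputable def geometricClasses {k : Type} [Field k] {ℓ : ℕ} [Fact ℓ.Prime] {ι : Type}
    {N : ι → ℕ} {d : ℕ} (ρ : ∀ i, AbsoluteGaloisGroup k →* Matrix (Fin (N i)) (Fin (N i)) ℚ_[ℓ])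
    (τ : AbsoluteGaloisGroup k →* Matrix (Fin d) (Fin d) ℚ_[ℓ])
    (H : Subgroup (AbsoluteGaloisGroup k)) {m : ℕ} (a : Fin m → ι) :
    Submodule ℚ_[ℓ] ((∀ t, Fin (N (a t))) → Fin d → ℚ_[ℓ]) :=
  Submodule.span ℚ_[ℓ] {T | ∀ σ ∈ H, σ ∈ geometric k → ∀ v : ∀ t, Fin (N (a t)) → ℚ_[ℓ],
    vectorValue T (fun t => ρ (a t) σ *ᵥ v t) = τ σ *ᵥ vectorValue T v}

/-- (Deligne) The dimensions of the spaces of geometric classes are independent of `ℓ ≠ p`, over all
finite extensions. -/
def DimensionsIndependent {k : Type} [Field k] (p : ℕ) {ι : Type} {N : ι → ℕ} {d : ℕ}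
    (ρ : ∀ (ℓ : ℕ) [Fact ℓ.Prime] (i : ι), AbsoluteGaloisGroup k →*
      Matrix (Fin (N i)) (Fin (N i)) ℚ_[ℓ])
    (τ : ∀ (ℓ : ℕ) [Fact ℓ.Prime], AbsoluteGaloisGroup k →* Matrix (Fin d) (Fin d) ℚ_[ℓ]) : Prop :=
  ∀ (ℓ : ℕ) [Fact ℓ.Prime], ℓ ≠ p → ∀ H : Subgroup (AbsoluteGaloisGroup k),
    IsOpen (H : Set (AbsoluteGaloisGroup k)) → ∀ (m : ℕ) (a : Fin m → ι),
    Module.finrank ℚ_[ℓ] (geometricClasses (ρ ℓ) (τ ℓ) H a) =
      Module.finrank ℚ_[2] (geometricClasses (ρ 2) (τ 2) H a)

/-- The geometric image modulo two is large: the lattices `ℤ₂ ^ N i` are stable, the forms are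
integral, `N i ≥ 6`, the `N i + 1` integral vectors `e i a` have odd products `J i (e i a, e i b)` for
`a ≠ b`, and each even permutation of the vectors `e i a` modulo two is the action of a geometric
element which acts trivially on the other lattices modulo two. -/
structure LargeModTwo {k : Type} [Field k] {ι : Type} {N : ι → ℕ}
    (J : ∀ i, Matrix (Fin (N i)) (Fin (N i)) ℚ)
    (ρ : ∀ i, AbsoluteGaloisGroup k →* Matrix (Fin (N i)) (Fin (N i)) ℚ_[2])
    (e : ∀ i, Fin (N i + 1) → Fin (N i) → ℚ_[2]) : Prop where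
  rank : ∀ i, 6 ≤ N i
  integral : ∀ i g a b, ‖ρ i g a b‖ ≤ 1
  integral_form : ∀ i a b, ‖adic 2 (J i) a b‖ ≤ 1
  integral_vectors : ∀ i a b, ‖e i a b‖ ≤ 1
  products : ∀ i a b, a ≠ b → ‖e i a ⬝ᵥ adic 2 (J i) *ᵥ e i b‖ = 1
  permutations : ∀ i (π : Equiv.Perm (Fin (N i + 1))), Equiv.Perm.sign π = 1 →
    ∃ g ∈ geometric k, (∀ a b, ‖(ρ i g *ᵥ e i a - e i (π a)) b‖ < 1) ∧
      ∀ j, j ≠ i → ∀ a b, ‖(ρ j g - 1) a b‖ < 1

/-- The 2-adic representation `τ` on the values is integral, and modulo two it does not absorb the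
permutations of the frames: for each `i` some geometric element acts trivially modulo two on the values
and permutes all the frames modulo two, the `i`-th frame not trivially; or the factorial of `N i + 1` is
greater than `2 ^ (d ^ 2 + 1)`. -/
structure FreeValues {k : Type} [Field k] {ι : Type} {N : ι → ℕ} {d : ℕ}
    (ρ : ∀ i, AbsoluteGaloisGroup k →* Matrix (Fin (N i)) (Fin (N i)) ℚ_[2])
    (e : ∀ i, Fin (N i + 1) → Fin (N i) → ℚ_[2])
    (τ : AbsoluteGaloisGroup k →* Matrix (Fin d) (Fin d) ℚ_[2]) : Prop where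
  integral : ∀ g a b, ‖τ g a b‖ ≤ 1
  free : ∀ i, 2 ^ (d ^ 2 + 1) < (N i + 1).factorial ∨
    ∃ g ∈ geometric k, ∃ π : ∀ j, Equiv.Perm (Fin (N j + 1)),
      (∀ a b, ‖(τ g - 1) a b‖ < 1) ∧ π i ≠ 1 ∧
        ∀ j a b, ‖(ρ j g *ᵥ e j a - e j (π j a)) b‖ < 1

/-- the multilinear map on the tensor word `a`, with values in the representation `τ`, is a Tate class:
it is equivariant for an open subgroup of the Galois group of `k` -/
def IsTate {k : Type} [Field k] {ℓ : ℕ} [Fact ℓ.Prime] {ι : Type} {N : ι → ℕ} {d : ℕ}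
    (ρ : ∀ i, AbsoluteGaloisGroup k →* Matrix (Fin (N i)) (Fin (N i)) ℚ_[ℓ])
    (τ : AbsoluteGaloisGroup k →* Matrix (Fin d) (Fin d) ℚ_[ℓ]) {m : ℕ} (a : Fin m → ι)
    (T : (∀ t, Fin (N (a t))) → Fin d → ℚ_[ℓ]) : Prop :=
  ∃ H : Subgroup (AbsoluteGaloisGroup k), IsOpen (H : Set (AbsoluteGaloisGroup k)) ∧
    ∀ σ ∈ H, ∀ v : ∀ t, Fin (N (a t)) → ℚ_[ℓ],
      vectorValue T (fun t => ρ (a t) σ *ᵥ v t) = τ σ *ᵥ vectorValue T v

/-- the vector is a Tate class: an open subgroup of the Galois group multiplies it by `κ ^ j` -/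
def IsTateVector {k : Type} [Field k] {ℓ : ℕ} [Fact ℓ.Prime] {d : ℕ}
    (τ : AbsoluteGaloisGroup k →* Matrix (Fin d) (Fin d) ℚ_[ℓ])
    (κ : AbsoluteGaloisGroup k →* ℚ_[ℓ]) (j : ℕ) (x : Fin d → ℚ_[ℓ]) : Prop :=
  ∃ H : Subgroup (AbsoluteGaloisGroup k), IsOpen (H : Set (AbsoluteGaloisGroup k)) ∧
    ∀ σ ∈ H, τ σ *ᵥ x = κ σ ^ j • x

/-- the multilinear form with rational coefficients on the tensor word `a` is killed by the product of
the Lie algebras of the forms -/
def IsRationalInvariant {ι : Type} {N : ι → ℕ} (J : ∀ i, Matrix (Fin (N i)) (Fin (N i)) ℚ) {m : ℕ}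
    (a : Fin m → ι) (T : (∀ t, Fin (N (a t))) → ℚ) : Prop :=
  ∀ X : ∀ i, Matrix (Fin (N i)) (Fin (N i)) ℚ, (∀ i, (X i)ᵀ * J i + J i * X i = 0) →
    ∀ v : ∀ t, Fin (N (a t)) → ℚ, ∑ t, value T (Function.update v t (X (a t) *ᵥ v t)) = 0

theorem result {k : Type} [Field k] (p : ℕ) (hp : p ≠ 2) [CharP k p] {ι : Type} [Fintype ι]
    {N w : ι → ℕ} {d : ℕ} (J : ∀ i, Matrix (Fin (N i)) (Fin (N i)) ℚ)
    (κ : ∀ (ℓ : ℕ) [Fact ℓ.Prime], AbsoluteGaloisGroup k →* ℚ_[ℓ])
    (ρ : ∀ (ℓ : ℕ) [Fact ℓ.Prime] (i : ι), AbsoluteGaloisGroup k →*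
      Matrix (Fin (N i)) (Fin (N i)) ℚ_[ℓ])
    (τ : ∀ (ℓ : ℕ) [Fact ℓ.Prime], AbsoluteGaloisGroup k →* Matrix (Fin d) (Fin d) ℚ_[ℓ])
    (h : IsSystem p w J κ ρ τ) (hD : DimensionsIndependent p ρ τ)
    -- the hypotheses on the geometric image modulo two
    (e : ∀ i, Fin (N i + 1) → Fin (N i) → ℚ_[2]) (h2 : LargeModTwo J (ρ 2) e)
    (hτ : FreeValues (ρ 2) e (τ 2))
    -- all prime numbers and all tensor words
    (ℓ : ℕ) [Fact ℓ.Prime] (hℓ : ℓ ≠ p) (m : ℕ) (a : Fin m → ι) :
    -- (a) no Tate classes if a letter occurs an odd number of times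
    (∀ i, Odd (Nat.card {t // a t = i}) → ∀ T, IsTate (ρ ℓ) (τ ℓ) a T → T = 0) ∧
    -- (b) the Tate classes in a word of weight `2 j`
    (∀ j, ∑ t, w (a t) = 2 * j → ∀ T, IsTate (ρ ℓ) (τ ℓ) a T ↔
      T ∈ Submodule.span ℚ_[ℓ] {T' | ∃ (T₀ : (∀ t, Fin (N (a t))) → ℚ) (x : Fin d → ℚ_[ℓ]),
        IsRationalInvariant J a T₀ ∧ IsTateVector (τ ℓ) (κ ℓ) j x ∧
        T' = fun r => (T₀ r : ℚ_[ℓ]) • x}) := by
  classical
  have hgeo : ∀ σ, σ ∈ geometric k ↔ σ ∈ Pool.Agent.N171.TG.Ff.geoSub k := fun σ =>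
    Pool.Agent.N171.TG.Ff.mem_geoSub.symm
  have hpos : ∀ i, 0 < N i := fun i => by have := h2.rank i; omega
  have h2p : 2 ≠ p := hp.symm
  have hdet2 : ∀ i, (adic 2 (J i)).det ≠ 0 := fun i =>
    Pool.Agent.R932.PO.det_map_ne (algebraMap ℚ ℚ_[2]) (h.nondegenerate i)
  have halt2 : ∀ i, (adic 2 (J i))ᵀ = -adic 2 (J i) := fun i =>
    (Pool.Agent.R932.PO.Fits.map (κ := .sym) (algebraMap ℚ ℚ_[2])
      (show Pool.Agent.R932.PO.Fits .sym (J i) from ⟨h.alternating i, hpos i⟩)).1
  have hdim : ∀ H : Subgroup (AbsoluteGaloisGroup k),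
      IsOpen (H : Set (AbsoluteGaloisGroup k)) → ∀ (m : ℕ) (a : Fin m → ι),
      Module.finrank ℚ_[ℓ] (Pool.Agent.N171.TG.Ff.InvW (ρ ℓ) (τ ℓ)
        ((H : Set (AbsoluteGaloisGroup k)) ∩ Pool.Agent.N171.TG.Ff.geoSub k) a) =
      Module.finrank ℚ_[2] (Pool.Agent.N171.TG.Ff.InvW (ρ 2) (τ 2)
        ((H : Set (AbsoluteGaloisGroup k)) ∩ Pool.Agent.N171.TG.Ff.geoSub k) a) := by
    intro H hH m a
    have key : ∀ (q : ℕ) [Fact q.Prime], geometricClasses (ρ q) (τ q) H a =
        Pool.Agent.N171.TG.Ff.InvW (ρ q) (τ q)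
          ((H : Set (AbsoluteGaloisGroup k)) ∩ Pool.Agent.N171.TG.Ff.geoSub k) a := by
      intro q _
      unfold geometricClasses
      refine (congrArg (Submodule.span ℚ_[q]) ?_).trans (Submodule.span_eq _)
      ext T
      constructor
      · intro hT σ hσ v
        exact hT σ hσ.1 ((hgeo σ).2 hσ.2) v
      · intro hT σ hσ hσg v
        exact hT σ ⟨hσ, (hgeo σ).1 hσg⟩ v
    rw [← key ℓ, ← key 2]
    exact hD ℓ hℓ H hH m a
  have hfull : ∀ X, (∀ i, Pool.Agent.Y142.ZS.SpLie (Pool.Agent.R932.PO.JL J 2 i) (X i)) →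
      Pool.Agent.N171.TG.WTan (fun i => (ρ 2 i).comp (Pool.Agent.N171.TG.Ff.geoSub k).subtype)
        ((τ 2).comp (Pool.Agent.N171.TG.Ff.geoSub k).subtype) X := fun X hX =>
    Pool.Agent.N171.TG.wtan_of_large
      (fun i => (ρ 2 i).comp (Pool.Agent.N171.TG.Ff.geoSub k).subtype) (fun i => adic 2 (J i))
      (fun i => ((powMonoidHom (w i)).comp (κ 2)).comp (Pool.Agent.N171.TG.Ff.geoSub k).subtype)
      (fun i => Pool.Agent.R932.OP.even_of_alt (halt2 i) (hdet2 i)) h2.rank halt2
      (fun i g => h2.integral i g.1)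
      h2.integral_form (fun i g => h.similitude 2 h2p i g.1) e h2.integral_vectors h2.products
      (fun i π hπ => by
        obtain ⟨g, hg, h3, h4⟩ := h2.permutations i π hπ
        exact ⟨⟨g, (hgeo g).1 hg⟩, h3, h4⟩)
      ((τ 2).comp (Pool.Agent.N171.TG.Ff.geoSub k).subtype) (fun g => hτ.integral g.1)
      (fun i => (hτ.free i).imp_right fun ⟨g, hg, π, h3, h4, h5⟩ =>
        ⟨⟨g, (hgeo g).1 hg⟩, π, h3, h4, h5⟩) X hX
  have hcl := Pool.Agent.N171.TG.Ff.isClosed_geoSub k
  refine ⟨fun i hi T hT => ?_, fun j hj T => ?_⟩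
  · obtain ⟨H, hH, hT⟩ := hT
    exact Pool.Agent.N171.TG.Ff.odd_ell hcl h.alternating h.nondegenerate hpos
      (h.continuous 2 h2p) (h.continuous_values 2 h2p) hfull hdim hi hH hT
  · exact Pool.Agent.N171.TG.Ff.tate_ell hcl h.alternating h.nondegenerate hpos
      (h.continuous 2 h2p) (h.continuous_values 2 h2p) (h.continuous_char 2 h2p)
      (fun σ hσ => h.geometric_char 2 h2p σ ((hgeo σ).2 hσ)) (h.similitude 2 h2p)
      (h.continuous ℓ hℓ) (h.continuous_char ℓ hℓ)
      (fun σ hσ => h.geometric_char ℓ hℓ σ ((hgeo σ).2 hσ)) (h.similitude ℓ hℓ) hfull hdim hj T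

end Pool.Agent.Results.MP_0fca13_ag.FunctionFieldsEveryEll
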