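import Pool.Agent.N179.FG.Fin

/-!
# The Tate conjecture over finitely generated fields for products of K3 surfaces whose reductions at
# one place have different heights, and for their products with arbitrary varieties

Let `k₀` be a finitely generated field, for example a number field, `Γ` its Galois group, `W` the
`ℓ`-adic cohomology of the varieties over the separable closure with coefficients in an algebraic
closure of `ℚ_ℓ`, and `χ` the inverse of the cyclotomic character (so that `g c = χ(g)^j c` for
`c ∈ H^(2j)` says that `c` is invariant in `H^(2j)(j)`). Let `v` be **one** place of `k₀` (a closed point
of a model), with the residue field with `q = p ^ m` elements, `p ≠ ℓ`, and `F ∈ Γ` a geometric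
Frobenius element at `v`. The theorem is proved for an abstract Weil cohomology theory with an
action of a group and one element `F` of it.

Let `X i` be K3 surfaces over `k₀` with good reduction at `v`, of finite height `h i`
(`HasK3Reduction` with `n i = 1`: over a finite extension of the field the eigenvalues of `F` on the
transcendental cohomology `T i` of `X i` are, up to roots of unity, `q` and the conjugates of a number
`q α i`, where all powers of `α i` generate a CM field `E i`, all complex absolute values of `α i` are
one, the `p`-adic embeddings with `|α i| > 1` belong to one place and there `|α i| = q ^ (1 / h i)`; the
numbers `q α i` occur on every nonzero subspace of `T i` which is stable under an open subgroup. For K3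
surfaces the last statement follows from the theorems on the endomorphisms of `T i` (Zarhin,
Tankeev, André, Madapusi Pera): they form a field `E'`, `T i` is the sum of irreducible
representations which correspond to the embeddings of `E'`, and the characteristic polynomials of
`F` on them are conjugate.) `b i` is the number of the eigenvalues `q α i` with multiplicities, so `22`
minus the geometric Picard number of the reduction at `v`.

More generally `X i` may be a variety for which the eigenvalues of `F` on the transcendental
cohomology are products of powers of `q` and of at most `n i` conjugates of one number `α i` as above:
cubic fourfolds (`n = 1`), powers of K3 surfaces and their Hilbert schemes of points, for which the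
Tate conjecture is known.

Let `G` be a set of rational numbers which contains `0`, and let `Z` be **any** smooth projective
variety over `k₀` such that the eigenvalues of `F` on the cohomology of `Z` of even weight `w` have
slopes in `w / 2 + G` (`SlopesAct`; for good reduction: the slopes of `H^w(Z)`, `w` even; bad reduction
is allowed). Suppose (`Admissible`) that

* integers `a i`, `|a i| ≤ n i`, such that `∑ a i / h i` belongs to `G` are zero, and that `n i ≤ 2`, or
  `n i = 3` and `(d i, m i) ∉ exceptionalPairs`, or `m i` is odd and `(d i, m i) ∉ exceptionalOddPairs`,
  where `[E i : ℚ] = 2 d i` and `m i` is the local degree; or
* (`G = {0}`) this only for the `a i` with index `i` in a set of indices (the `Isolated` ones), and for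
  the other indices only that `n i = 1`, that the `h i` are different, and that there are not three such
  indices with `(h, b) = (2, 4), (3, 6), (6, 12)` (the bounds `h ≤ 11`, `b ≤ 23` hold for all K3
  surfaces).

**Theorem.** The Tate conjecture for the product of some of the `X i` with `Z` (cycles of all
codimensions, all finite extensions of `k₀`) is equivalent to the Tate conjecture for `Z`.

In particular, with `Z` a point:

* **the Tate conjecture holds, in all codimensions, for all products of K3 surfaces over number
  fields (or any finitely generated field) whose reductions at one place have finite, pairwise
  different heights** (except possibly if three of the reductions have the heights `2, 3, 6` and the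
  Picard numbers `18, 16, 10`);
* `G` the integers: let `X` be a K3 surface whose reduction at one place `v` has a finite height
  `h > 1` (or the product of two with different heights greater than one), and `Z` **any**
  variety with ordinary reduction at `v`, or with integral slopes, for instance with totally degenerate
  reduction at `v`. Then the Tate conjecture for `X × Z` is equivalent to the Tate conjecture for `Z`. One
  can use different places one after the other: if `X j` has a place `v j` where its height is
  greater than one and where the `X i`, `i < j`, and `Z` are ordinary, then the Tate conjecture for
  `X 1 × ⋯ × X n × Z` is equivalent to the one for `Z`.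

There is no hypothesis on the monodromy groups or the endomorphisms of `Z`, and Frobenius is not
assumed to be semisimple.

The idea: the contractions of a Tate class on `X i × Y` with the linear forms on the cohomology of `Y`
span a subspace of `T i` (after the projection) which is stable under an open subgroup. If it is not
zero then it contains an eigenvector of a power of `F` with an eigenvalue which is not a power of `q`,
and the inverse eigenvalue (up to a power of `q`) occurs on `Y`. The slopes exclude such relations
between the `α i` and the eigenvalues on `Z` (the arithmetic is the one of
`MP_021685_ag.K3SurfacesOfDifferentHeights`).
-/

set_option autoImplicit false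

open CategoryTheory AlgebraicGeometry NumberField

universe u v w

namespace Pool.Agent.Results.MP_0fca13_ag.HeightsAtOnePlace

open Pool.Agent.H914 Pool.Agent.TH125.Gal Pool.Agent.W517.K3 Pool.Agent.N179.TL
  Pool.Agent.N179.FG VarClass Obj WeilCohomology

/-- **The Tate conjecture for products of K3 surfaces whose reductions at one place have different
heights, with arbitrary varieties whose slopes at this place are in `G`.** -/
theorem result {k : Type u} [Field k] {𝒱 : VarClass k} {ops : CycleOps 𝒱}
    {W : WeilCohomology.{u, v} ops} [IsAlgClosed W.K] {Γ : Type w} [Group Γ] (χ : Γ →* W.Kˣ)
    (F : Γ) (p m : ℕ) [Fact p.Prime] (hm : 0 < m) (hχ : (χ F : W.K) = (p : W.K) ^ m)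
    {r : ℕ} (X : Fin r → GVar W Γ) (E : Fin r → Type) [∀ i, Field (E i)]
    [∀ i, NumberField (E i)] [∀ i, IsCMField (E i)] (α : ∀ i, E i) (h b n : Fin r → ℕ)
    (hX : ∀ i, HasK3Reduction χ F p m (X i) (α i) (h i) (b i) (n i)) (G : Set ℚ)
    (hA : Admissible G h b (fun i => Module.finrank ℚ (E i) / 2)
      (fun i => localDegree p (α i)) n)
    (Z : GVar W Γ) (hZ : SlopesAct Z.act F p m G) (S : Finset (Fin r)) (Y : GVar W Γ)
    (hY : Tower X Z S Y) :
    TateConjecture χ Y ↔ TateConjecture χ Z :=
  tower_tate hm hχ hX hA hZ hY

end Pool.Agent.Results.MP_0fca13_ag.HeightsAtOnePlace
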